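import Pool.Agent.Helper50.BL.Stmts
import Pool.Agent.Helper50.BL.Base

/-!
# Numerical conditions of the class step (module NUMS of the project BL)
-/

namespace Pool.Agent.Helper50.BL

open Finset
open scoped Classical

theorem nums_bc (t D E : ℝ) (ht : 1 ≤ t) (hD : 0 < D) (hDE : D * E = 1) (hE : 0 < E)
    (htE : t * E ≤ 1 / 64) :
    (1 + t * D) ^ 2 * (E ^ 12 + 12 * t * E ^ 10) ≤ E ^ 2 ∧
      (1 + t * D) * (E ^ 12 + 12 * t * E ^ 10) ≤ E ^ 6 := by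
  have hE1 : E ≤ 1 / 64 := le_trans (by nlinarith) htE
  have htE0 : 0 < t * E := by positivity
  have hD1 : 1 ≤ D := by
    by_contra hc
    push Not at hc
    nlinarith
  have h1 : 1 + t * D ≤ 2 * (t * D) := by nlinarith
  have h2 : E ^ 12 + 12 * t * E ^ 10 ≤ 13 * t * E ^ 10 := by
    have a1 : E ^ 2 ≤ 1 := pow_le_one₀ hE.le (by linarith)
    have a2 : E ^ 2 ≤ t := by linarith
    have a3 : E ^ 12 = E ^ 2 * E ^ 10 := by ring
    have a4 : 0 < E ^ 10 := by positivity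
    rw [a3]
    nlinarith [mul_le_mul_of_nonneg_right a2 a4.le]
  have h0 : 0 ≤ E ^ 12 + 12 * t * E ^ 10 := by positivity
  have h3 : 0 ≤ 1 + t * D := by positivity
  have e2 : (t * E) ^ 2 ≤ (1 / 64) ^ 2 := pow_le_pow_left₀ htE0.le htE 2
  have e3 : (t * E) ^ 3 ≤ (1 / 64) ^ 3 := pow_le_pow_left₀ htE0.le htE 3
  constructor
  · calc (1 + t * D) ^ 2 * (E ^ 12 + 12 * t * E ^ 10)
        ≤ (2 * (t * D)) ^ 2 * (13 * t * E ^ 10) := by
          apply mul_le_mul (pow_le_pow_left₀ h3 h1 2) h2 h0 (by positivity)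
      _ = 52 * (t * E) ^ 3 * (D * E) ^ 2 * (E ^ 3 * E ^ 2) := by ring
      _ = 52 * (t * E) ^ 3 * E ^ 3 * E ^ 2 := by rw [hDE]; ring
      _ ≤ 1 * E ^ 2 := by
          apply mul_le_mul_of_nonneg_right _ (by positivity)
          have a1 : E ^ 3 ≤ 1 := pow_le_one₀ hE.le (by linarith)
          have a2 : 0 < E ^ 3 := by positivity
          have a3 : 52 * (t * E) ^ 3 ≤ 1 := by nlinarith
          have a4 : 0 ≤ 52 * (t * E) ^ 3 := by positivity
          nlinarith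
      _ = E ^ 2 := one_mul _
  · calc (1 + t * D) * (E ^ 12 + 12 * t * E ^ 10)
        ≤ (2 * (t * D)) * (13 * t * E ^ 10) := by
          apply mul_le_mul h1 h2 h0 (by positivity)
      _ = 26 * (t * E) ^ 2 * (D * E) * (E * E ^ 6) := by ring
      _ = 26 * (t * E) ^ 2 * E * E ^ 6 := by rw [hDE]; ring
      _ ≤ 1 * E ^ 6 := by
          apply mul_le_mul_of_nonneg_right _ (by positivity)
          have a3 : 26 * (t * E) ^ 2 ≤ 1 := by nlinarith
          have a4 : 0 ≤ 26 * (t * E) ^ 2 := by positivity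
          nlinarith
      _ = E ^ 6 := one_mul _

/-- the first term of `Rc` -/
theorem nums_r1 (p t s k m T N w : ℝ) (hp : 1 ≤ p) (ht : 1 ≤ t) (hs : 64 * p * t ≤ s)
    (hN : s ^ 8 = N) (hw : N * w = 1) (hw0 : 0 < w) (hk0 : 0 ≤ k) (hk : k ≤ 2576 * p * s)
    (hm0 : 0 ≤ m) (hm : m ≤ 128 * s) (hT0 : 0 ≤ T) (hT : T ≤ 128 * t) :
    k * m * T / (8 * N ^ 4) ≤ 1 / 4 * w ^ 3 := by
  have hs64 : 64 ≤ s := le_trans (by nlinarith) hs
  have hNpos : 0 < N := by rw [← hN]; positivity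
  have h1 : k * m ≤ (2576 * p * s) * (128 * s) := mul_le_mul hk hm hm0 (by positivity)
  have h2 : k * m * T ≤ ((2576 * p * s) * (128 * s)) * (128 * t) :=
    mul_le_mul h1 hT hT0 (by positivity)
  have h3 : ((2576 * p * s) * (128 * s)) * (128 * t) = 659456 * ((64 * p * t) * s ^ 2) := by ring
  have h4 : (64 * p * t) * s ^ 2 ≤ s * s ^ 2 := mul_le_mul_of_nonneg_right hs (by positivity)
  have h5 : k * m * T ≤ 659456 * s ^ 3 := by
    rw [h3] at h2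
    have e : s * s ^ 2 = s ^ 3 := by ring
    rw [e] at h4
    linarith
  have h6 : (64 : ℝ) ^ 5 ≤ s ^ 5 := pow_le_pow_left₀ (by norm_num) hs64 5
  have h7 : 659456 * s ^ 3 ≤ 2 * s ^ 8 := by
    have e : s ^ 8 = s ^ 5 * s ^ 3 := by ring
    rw [e]
    have h8 : 0 < s ^ 3 := by positivity
    nlinarith
  have h9 : k * m * T ≤ 2 * N := by rw [← hN]; linarith
  have hw3 : w ^ 3 = N / N ^ 4 := by
    have e : w = 1 / N := by
      field_simp
      linarith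
    rw [e]
    field_simp
  rw [hw3, div_le_iff₀ (by positivity)]
  have e : 1 / 4 * (N / N ^ 4) * (8 * N ^ 4) = 2 * N := by
    field_simp
    ring
  rw [e]
  exact h9

/-- the second term of `Rc` -/
theorem nums_r2 (p t s k T N w D E x : ℝ) (hp : 1 ≤ p) (ht : 1 ≤ t) (hs : 64 * p * t ≤ s)
    (hN : s ^ 8 = N) (hw : N * w = 1) (hw0 : 0 < w) (hk0 : 0 ≤ k) (hk : k ≤ 2576 * p * s)
    (hT0 : 0 ≤ T) (hT : T ≤ 128 * t) (hD : 0 < D) (hDE : D * E = 1) (hE : 0 < E)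
    (hEw : E ≤ w ^ 32) (hx0 : 0 ≤ x) (hx : x ≤ E ^ 2) :
    16 * t * T * (2 * (t * D) * (k * Real.sqrt (4 * t * N ^ 4)) * x) ≤ 1 / 4 * w ^ 3 := by
  have hs64 : 64 ≤ s := le_trans (by nlinarith) hs
  have hNpos : 0 < N := by rw [← hN]; positivity
  have hs8 : (64 : ℝ) ^ 8 ≤ N := by rw [← hN]; exact pow_le_pow_left₀ (by norm_num) hs64 8
  have hsq : Real.sqrt (4 * t * N ^ 4) ≤ 2 * t * N ^ 2 := by
    apply Real.sqrt_le_iff.mpr
    refine ⟨by positivity, ?_⟩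
    have e : (2 * t * N ^ 2) ^ 2 = 4 * t * N ^ 4 * t := by ring
    rw [e]
    have h0 : 0 ≤ 4 * t * N ^ 4 := by positivity
    nlinarith
  have hsq0 : 0 ≤ Real.sqrt (4 * t * N ^ 4) := Real.sqrt_nonneg _
  have h1 : k * Real.sqrt (4 * t * N ^ 4) ≤ (2576 * p * s) * (2 * t * N ^ 2) :=
    mul_le_mul hk hsq hsq0 (by positivity)
  have h2 : 2 * (t * D) * (k * Real.sqrt (4 * t * N ^ 4)) * x
      ≤ 2 * (t * D) * ((2576 * p * s) * (2 * t * N ^ 2)) * E ^ 2 := by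
    apply mul_le_mul _ hx hx0 (by positivity)
    exact mul_le_mul_of_nonneg_left h1 (by positivity)
  have h3 : 16 * t * T ≤ 16 * t * (128 * t) := mul_le_mul_of_nonneg_left hT (by positivity)
  have h4 : 16 * t * T * (2 * (t * D) * (k * Real.sqrt (4 * t * N ^ 4)) * x)
      ≤ 16 * t * (128 * t) * (2 * (t * D) * ((2576 * p * s) * (2 * t * N ^ 2)) * E ^ 2) :=
    mul_le_mul h3 h2 (by positivity) (by positivity)
  have h5 : 16 * t * (128 * t) * (2 * (t * D) * ((2576 * p * s) * (2 * t * N ^ 2)) * E ^ 2)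
      = 21102592 * (p * t) * t ^ 3 * s * N ^ 2 * E * (D * E) := by ring
  rw [hDE, mul_one] at h5
  have hpt : p * t ≤ s := by nlinarith
  have ht' : t ≤ s := by nlinarith
  have h6 : (p * t) * t ^ 3 * s ≤ N := by
    have a1 : t ^ 3 ≤ s ^ 3 := pow_le_pow_left₀ (by linarith) ht' 3
    have a2 : (p * t) * t ^ 3 ≤ s * s ^ 3 := mul_le_mul hpt a1 (by positivity) (by positivity)
    have a3 : (p * t) * t ^ 3 * s ≤ s * s ^ 3 * s := mul_le_mul_of_nonneg_right a2 (by linarith)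
    have a4 : s * s ^ 3 * s = s ^ 5 := by ring
    have a5 : s ^ 5 ≤ s ^ 8 := pow_le_pow_right₀ (by linarith) (by norm_num)
    rw [← hN]
    linarith
  have h7 : 21102592 * (p * t) * t ^ 3 * s * N ^ 2 * E ≤ N * N * N ^ 2 * w ^ 32 := by
    have a1 : 21102592 * (p * t) * t ^ 3 * s ≤ N * N := by
      have e : 21102592 * (p * t) * t ^ 3 * s = 21102592 * ((p * t) * t ^ 3 * s) := by ring
      rw [e]
      exact mul_le_mul (by linarith) h6 (by positivity) hNpos.le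
    have a2 : 21102592 * (p * t) * t ^ 3 * s * N ^ 2 ≤ N * N * N ^ 2 :=
      mul_le_mul_of_nonneg_right a1 (by positivity)
    exact mul_le_mul a2 hEw hE.le (by positivity)
  have h8 : N * N * N ^ 2 * w ^ 32 = (N * w) ^ 4 * w ^ 28 := by ring
  rw [hw, one_pow, one_mul] at h8
  have hw1 : w ≤ 1 / 4 := by
    by_contra hc
    push Not at hc
    nlinarith
  have h9 : w ^ 28 ≤ 1 / 4 * w ^ 3 := by
    have e : w ^ 28 = w ^ 24 * w * w ^ 3 := by ring
    rw [e]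
    apply mul_le_mul_of_nonneg_right _ (by positivity)
    have a1 : w ^ 24 ≤ 1 := pow_le_one₀ hw0.le (by linarith)
    have a2 : 0 < w ^ 24 := by positivity
    nlinarith
  calc 16 * t * T * (2 * (t * D) * (k * Real.sqrt (4 * t * N ^ 4)) * x)
      ≤ 21102592 * (p * t) * t ^ 3 * s * N ^ 2 * E := by rw [← h5]; exact h4
    _ ≤ w ^ 28 := by rw [← h8]; exact h7
    _ ≤ _ := h9

theorem nums_k (p L s : ℝ) (hp : 1 ≤ p) (hL1 : 1 ≤ L) (hLs : L ≤ 8 * s) (hs : 64 ≤ s) :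
    320 * p * L + 2 ≤ 2576 * p * s ∧ 1 ≤ 320 * p * L := by
  have h2 : p * L ≤ p * (8 * s) := mul_le_mul_of_nonneg_left hLs (by linarith)
  have h3 : 1 ≤ p * L := by nlinarith
  have h4 : 1 ≤ p * s := by nlinarith
  constructor <;> linarith

theorem nums_log (L b : ℝ) (hL1 : 1 ≤ L) (hb : 0.6931471803 < b) : 5 * L ≤ 8 * L * b := by
  nlinarith

theorem nums_w2 (w : ℝ) (hw0 : 0 < w) (hw1 : w ≤ 1 / 64) : w ^ 2 ≤ 1 / 4 := by nlinarith

theorem nums_d1 (T w R : ℝ) (hTw : T * w ≤ 1) (hw0 : 0 < w) (hw2 : w ^ 2 ≤ 1 / 4)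
    (hR : R ≤ 1 / 2 * w ^ 3) : T * w ^ 6 + R ≤ w ^ 3 := by
  have hw3 : 0 < w ^ 3 := by positivity
  have h1 : T * w ^ 6 ≤ 1 / 4 * w ^ 3 := by
    have e : T * w ^ 6 = (T * w) * w ^ 2 * w ^ 3 := by ring
    rw [e]
    apply mul_le_mul_of_nonneg_right _ hw3.le
    have h0 : 0 ≤ w ^ 2 := by positivity
    have h2 : (T * w) * w ^ 2 ≤ 1 * w ^ 2 := mul_le_mul_of_nonneg_right hTw h0
    linarith
  linarith

theorem nums_d2 (p : ℕ) (T N w R : ℝ) (hp : 1 ≤ p) (hTw : (T + 8) * w ≤ 1) (hT0 : 0 ≤ T)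
    (hw0 : 0 < w) (hw1 : w ≤ 1) (hw2 : w ^ 2 ≤ 1 / 4) (hNw : N * w = 1)
    (hR : R ≤ 1 / 2 * w ^ 3) :
    R + N ^ (16 * p) * (T * w ^ (24 * p) + 8 * w ^ (32 * p)) ≤ w ^ 3 := by
  have hw3 : 0 < w ^ 3 := by positivity
  have e1 : N ^ (16 * p) * w ^ (24 * p) = w ^ (8 * p) := by
    have e : 24 * p = 16 * p + 8 * p := by ring
    rw [e, pow_add, ← mul_assoc, ← mul_pow, hNw, one_pow, one_mul]
  have e2 : N ^ (16 * p) * w ^ (32 * p) = w ^ (16 * p) := by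
    have e : 32 * p = 16 * p + 16 * p := by ring
    rw [e, pow_add, ← mul_assoc, ← mul_pow, hNw, one_pow, one_mul]
  have e3 : N ^ (16 * p) * (T * w ^ (24 * p) + 8 * w ^ (32 * p))
      = T * w ^ (8 * p) + 8 * w ^ (16 * p) := by
    rw [← e1, ← e2]; ring
  rw [e3]
  have a1 : w ^ (8 * p) ≤ w ^ 8 := pow_le_pow_of_le_one hw0.le hw1 (by omega)
  have a2 : w ^ (16 * p) ≤ w ^ 8 := pow_le_pow_of_le_one hw0.le hw1 (by omega)
  have a3 : T * w ^ (8 * p) ≤ T * w ^ 8 := mul_le_mul_of_nonneg_left a1 hT0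
  have a3' : 8 * w ^ (16 * p) ≤ 8 * w ^ 8 := mul_le_mul_of_nonneg_left a2 (by norm_num)
  have a4 : T * w ^ 8 + 8 * w ^ 8 = ((T + 8) * w) * w ^ 4 * w ^ 3 := by ring
  have a5 : ((T + 8) * w) * w ^ 4 * w ^ 3 ≤ 1 / 2 * w ^ 3 := by
    apply mul_le_mul_of_nonneg_right _ hw3.le
    have b1 : w ^ 4 ≤ 1 / 2 := by
      have e : w ^ 4 = w ^ 2 * w ^ 2 := by ring
      rw [e]
      have h0 : 0 ≤ w ^ 2 := by positivity
      have h1 : w ^ 2 * w ^ 2 ≤ w ^ 2 * 1 := mul_le_mul_of_nonneg_left (by linarith) h0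
      linarith
    have b2 : 0 ≤ w ^ 4 := by positivity
    have b3 : (T + 8) * w * w ^ 4 ≤ 1 * w ^ 4 := mul_le_mul_of_nonneg_right hTw b2
    linarith
  calc R + (T * w ^ (8 * p) + 8 * w ^ (16 * p))
      ≤ 1 / 2 * w ^ 3 + (T * w ^ 8 + 8 * w ^ 8) := add_le_add hR (add_le_add a3 a3')
    _ ≤ 1 / 2 * w ^ 3 + 1 / 2 * w ^ 3 := by
        rw [a4]
        exact add_le_add le_rfl a5
    _ = w ^ 3 := by ring

theorem nums_X (p t s k T N : ℝ) (hp : 1 ≤ p) (ht : 1 ≤ t) (hs : 64 * p * t ≤ s)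
    (hN : s ^ 8 = N) (hk0 : 0 ≤ k) (hk : k ≤ 2576 * p * s)
    (hT0 : 0 ≤ T) (hT : T ≤ 128 * t) : T + 8 + 2 * k * T * t ≤ N := by
  have hs64 : 64 ≤ s := le_trans (by nlinarith) hs
  have hs0 : 0 ≤ s := by linarith
  have hst : t ≤ s := by nlinarith
  have h64t : 64 * t ≤ s := by nlinarith
  have a1 : k * T ≤ (2576 * p * s) * (128 * t) := mul_le_mul hk hT hT0 (by positivity)
  have a2 : k * T * t ≤ (2576 * p * s) * (128 * t) * t :=
    mul_le_mul_of_nonneg_right a1 (by linarith)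
  have a3 : (2576 * p * s) * (128 * t) * t = 5152 * ((64 * p * t) * t) * s := by ring
  have a4 : (64 * p * t) * t ≤ s * s := mul_le_mul hs hst (by linarith) hs0
  have a5 : 5152 * ((64 * p * t) * t) * s ≤ 5152 * (s * s) * s :=
    mul_le_mul_of_nonneg_right (by linarith) hs0
  have a5' : 5152 * (s * s) * s = 5152 * s ^ 3 := by ring
  have a6 : T + 8 ≤ 3 * s := by linarith
  have a7 : (64 : ℝ) ^ 5 ≤ s ^ 5 := pow_le_pow_left₀ (by norm_num) hs64 5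
  have a8 : s ≤ s ^ 3 := le_self_pow₀ (by linarith) (by norm_num)
  have a9 : N = s ^ 5 * s ^ 3 := by rw [← hN]; ring
  have a10 : 0 < s ^ 3 := by positivity
  have a11 : (64 : ℝ) ^ 5 * s ^ 3 ≤ N := by
    rw [a9]; exact mul_le_mul_of_nonneg_right a7 a10.le
  have a12 : k * T * t ≤ 5152 * s ^ 3 := by
    rw [← a5']
    rw [a3] at a2
    exact a2.trans a5
  have a13 : 2 * k * T * t = 2 * (k * T * t) := by ring
  rw [a13]
  linarith

theorem nums_e (p : ℕ) (T N w X : ℝ) (hp : 1 ≤ p) (hT0 : 0 ≤ T) (hX0 : 0 ≤ X)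
    (hw0 : 0 < w) (hw1 : w ≤ 1) (hNw : N * w = 1) (hX : T + 8 + X ≤ N) :
    T * w ^ (24 * p) + 8 * w ^ (32 * p) + X * w ^ (16 * p) ≤ w ^ (12 * p) := by
  have e1 : w ^ (24 * p) ≤ w ^ (4 * p) * w ^ (12 * p) := by
    rw [← pow_add]
    exact pow_le_pow_of_le_one hw0.le hw1 (by omega)
  have e2 : w ^ (32 * p) ≤ w ^ (4 * p) * w ^ (12 * p) := by
    rw [← pow_add]
    exact pow_le_pow_of_le_one hw0.le hw1 (by omega)
  have e3 : w ^ (16 * p) = w ^ (4 * p) * w ^ (12 * p) := by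
    rw [← pow_add]
    congr 1
    ring
  have hq : w ^ (4 * p) ≤ w ^ 4 := pow_le_pow_of_le_one hw0.le hw1 (by omega)
  have hr0 : 0 ≤ w ^ (12 * p) := by positivity
  have hfin : w ^ (4 * p) * (T + 8 + X) ≤ 1 := by
    have b1 : w ^ (4 * p) * (T + 8 + X) ≤ w ^ 4 * N :=
      mul_le_mul hq hX (by positivity) (by positivity)
    have b2 : w ^ 4 * N = (N * w) * w ^ 3 := by ring
    rw [b2, hNw, one_mul] at b1
    exact b1.trans (pow_le_one₀ hw0.le hw1)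
  have c1 : T * w ^ (24 * p) ≤ T * (w ^ (4 * p) * w ^ (12 * p)) :=
    mul_le_mul_of_nonneg_left e1 hT0
  have c3 : 8 * w ^ (32 * p) ≤ 8 * (w ^ (4 * p) * w ^ (12 * p)) :=
    mul_le_mul_of_nonneg_left e2 (by norm_num)
  have c2 : w ^ (4 * p) * (T + 8 + X) * w ^ (12 * p) ≤ 1 * w ^ (12 * p) :=
    mul_le_mul_of_nonneg_right hfin hr0
  rw [one_mul] at c2
  refine le_trans ?_ c2
  rw [e3]
  calc T * w ^ (24 * p) + 8 * w ^ (32 * p) + X * (w ^ (4 * p) * w ^ (12 * p))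
      ≤ T * (w ^ (4 * p) * w ^ (12 * p)) + 8 * (w ^ (4 * p) * w ^ (12 * p))
        + X * (w ^ (4 * p) * w ^ (12 * p)) := add_le_add (add_le_add c1 c3) le_rfl
    _ = w ^ (4 * p) * (T + 8 + X) * w ^ (12 * p) := by ring

theorem st_NUMS : ST_NUMS := by
  intro p hp
  refine ⟨64 * p, fun t ρ n ht hρ hn => ?_⟩
  have hp1 : (1 : ℝ) ≤ p := by exact_mod_cast hp
  have ht1 : (1 : ℝ) ≤ t := by exact_mod_cast ht
  have hN0 : ((64 : ℝ) * p * t) ^ 8 ≤ (n : ℝ) := by exact_mod_cast hn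
  have hT : (2 : ℝ) ^ ρ ≤ 128 * t := by exact_mod_cast hρ
  have hT0 : (0 : ℝ) ≤ (2 : ℝ) ^ ρ := by positivity
  have hkapdef : kap p n = 320 * (p : ℝ) * Real.log (n : ℝ) := rfl
  obtain ⟨N, hNn⟩ : ∃ N : ℝ, N = (n : ℝ) := ⟨_, rfl⟩
  rw [← hNn] at hN0 hkapdef
  have hpt1 : (1 : ℝ) ≤ (p : ℝ) * t := one_le_mul_of_one_le_of_one_le hp1 ht1
  have hbase : (64 : ℝ) ≤ 64 * (p : ℝ) * t := by linarith
  have hNpos : 0 < N := lt_of_lt_of_le (by positivity) hN0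
  obtain ⟨s, hs0, hs8⟩ : ∃ s : ℝ, 0 ≤ s ∧ s ^ 8 = N := by
    refine ⟨N ^ ((1 : ℝ) / 8), Real.rpow_nonneg hNpos.le _, ?_⟩
    rw [← Real.rpow_natCast, ← Real.rpow_mul hNpos.le]
    norm_num
  have hs : 64 * (p : ℝ) * t ≤ s := by
    by_contra hc
    push Not at hc
    have h1 := pow_lt_pow_left₀ hc hs0 (by norm_num : (8 : ℕ) ≠ 0)
    linarith
  have hs64 : 64 ≤ s := le_trans hbase hs
  have h64t : 64 * (t : ℝ) ≤ s := by
    have h1 : 1 * (t : ℝ) ≤ p * t := mul_le_mul_of_nonneg_right hp1 (by linarith)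
    linarith
  have h64p : 64 * (p : ℝ) ≤ s := by
    have h1 : (p : ℝ) * 1 ≤ p * t := mul_le_mul_of_nonneg_left ht1 (by linarith)
    linarith
  have hsN : s ≤ N := by
    rw [← hs8]
    exact le_self_pow₀ (by linarith) (by norm_num)
  have hN64 : (64 : ℝ) ^ 8 ≤ N := by
    rw [← hs8]; exact pow_le_pow_left₀ (by norm_num) hs64 8
  have hN1 : 1 ≤ N := by linarith
  -- the logarithm
  obtain ⟨L, hL⟩ : ∃ L : ℝ, L = Real.log N := ⟨_, rfl⟩
  have hexpL : Real.exp L = N := by rw [hL]; exact Real.exp_log hNpos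
  have hL1 : 1 ≤ L := by
    rw [hL, Real.le_log_iff_exp_le hNpos]
    have := Real.exp_one_lt_d9
    linarith
  have hLs : L ≤ 8 * s := by
    have h1 : L = 8 * Real.log s := by
      rw [hL, ← hs8, Real.log_pow]
      push_cast
      ring
    have h2 := Real.log_le_sub_one_of_pos (by linarith : 0 < s)
    rw [h1]
    linarith
  have hLN : L ≤ N := by
    have h2 := Real.log_le_sub_one_of_pos hNpos
    rw [hL]
    linarith
  -- D, E, w
  obtain ⟨w, hw⟩ : ∃ w : ℝ, w = 1 / N := ⟨_, rfl⟩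
  have hw0 : 0 < w := by rw [hw]; positivity
  have hNw : N * w = 1 := by rw [hw]; field_simp
  have hw1 : w ≤ 1 / 64 := by
    rw [hw]
    exact one_div_le_one_div_of_le (by norm_num) (by linarith)
  obtain ⟨D, hD⟩ : ∃ D : ℝ, D = N ^ (32 * p) := ⟨_, rfl⟩
  have hD0 : 0 < D := by rw [hD]; positivity
  obtain ⟨E, hE⟩ : ∃ E : ℝ, E = 1 / D := ⟨_, rfl⟩
  have hE0 : 0 < E := by rw [hE]; positivity
  have hDE : D * E = 1 := by rw [hE]; field_simp
  have hEw32 : E = w ^ (32 * p) := by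
    rw [hE, hD, hw, one_div_pow]
  have hEw : E ≤ w ^ 32 := by
    rw [hEw32]
    exact pow_le_pow_of_le_one hw0.le (by linarith) (by omega)
  have htE : (t : ℝ) * E ≤ 1 / 64 := by
    have a1 : E ≤ w := hEw.trans (pow_le_of_le_one hw0.le (by linarith) (by norm_num))
    have a2 : (t : ℝ) * E ≤ t * w := mul_le_mul_of_nonneg_left a1 (by linarith)
    have a3 : 64 * (t : ℝ) * w ≤ N * w :=
      mul_le_mul_of_nonneg_right (h64t.trans hsN) hw0.le
    rw [hNw] at a3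
    linarith
  have hexp : Real.exp (-kap p n) = E ^ 10 := by
    have h1 : kap p n = ((320 * p : ℕ) : ℝ) * L := by
      rw [hkapdef, hL]; push_cast; ring
    rw [h1, Real.exp_neg, Real.exp_nat_mul, hexpL, hE, hD, one_div_pow, ← pow_mul, one_div]
    congr 2
    ring
  have hkL : kap p n = 320 * p * L := by rw [hkapdef, hL]
  have hk : kap p n + 2 ≤ 2576 * p * s := by
    rw [hkL]
    exact (nums_k p L s hp1 hL1 hLs hs64).1
  have hkap1 : 1 ≤ kap p n := by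
    rw [hkL]
    exact (nums_k p L s hp1 hL1 hLs hs64).2
  have hk0 : 0 ≤ kap p n + 2 := by linarith only [hkap1]
  obtain ⟨hb, hc⟩ := nums_bc t D E ht1 hD0 hDE hE0 htE
  -- the level
  obtain ⟨Nn, hNn'⟩ : ∃ m : ℕ, m = ⌈8 * L⌉₊ := ⟨_, rfl⟩
  have hNn1 : 8 * L ≤ (Nn : ℝ) := by rw [hNn']; exact Nat.le_ceil _
  have hNn2 : (Nn : ℝ) ≤ 8 * L + 1 := by
    rw [hNn']; exact (Nat.ceil_lt_add_one (by linarith)).le
  have hm : (Nn : ℝ) + 7 ≤ 128 * s := by linarith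
  have hm0 : (0 : ℝ) ≤ (Nn : ℝ) + 7 := by positivity
  have hpow : 64 * (t : ℝ) * N ^ 4 ≤ 2 ^ Nn := by
    have h1 : 64 * (t : ℝ) * N ^ 4 ≤ N * N ^ 4 :=
      mul_le_mul_of_nonneg_right (h64t.trans hsN) (by positivity)
    have h2 : N * N ^ 4 = Real.exp (((5 : ℕ) : ℝ) * L) := by
      rw [Real.exp_nat_mul, hexpL]; ring
    have h3 : (2 : ℝ) ^ Nn = Real.exp ((Nn : ℝ) * Real.log 2) := by
      rw [Real.exp_nat_mul, Real.exp_log (by norm_num)]
    have h4 : ((5 : ℕ) : ℝ) * L ≤ (Nn : ℝ) * Real.log 2 := by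
      have h5 := Real.log_two_gt_d9
      have h6 : 8 * L * Real.log 2 ≤ (Nn : ℝ) * Real.log 2 :=
        mul_le_mul_of_nonneg_right hNn1 (by linarith)
      have h7 : 5 * L ≤ 8 * L * Real.log 2 := nums_log L (Real.log 2) hL1 h5
      push_cast
      exact h7.trans h6
    rw [h3]
    rw [h2] at h1
    exact h1.trans (Real.exp_le_exp.mpr h4)
  -- exp (- N ^ 4)
  have hx : Real.exp (-(N ^ 4)) ≤ E ^ 2 := by
    have h1 : E ^ 2 = Real.exp (-(((64 * p : ℕ) : ℝ) * L)) := by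
      rw [Real.exp_neg, Real.exp_nat_mul, hexpL, hE, hD, one_div_pow, ← pow_mul, one_div]
      congr 2
      ring
    rw [h1]
    apply Real.exp_le_exp.mpr
    have h2 : ((64 * p : ℕ) : ℝ) * L ≤ N * N := by
      push_cast
      exact mul_le_mul (h64p.trans hsN) hLN (by linarith) hNpos.le
    have h3 : N * N ≤ N ^ 4 := by
      have e : N * N = N ^ 2 := by ring
      rw [e]
      exact pow_le_pow_right₀ hN1 (by norm_num)
    linarith
  have hr1 := nums_r1 p t s (kap p n + 2) ((Nn : ℝ) + 7) ((2 : ℝ) ^ ρ) N w hp1 ht1 hs hs8 hNw hw0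
    hk0 hk hm0 hm hT0 hT
  have hr2 := nums_r2 p t s (kap p n + 2) ((2 : ℝ) ^ ρ) N w D E (Real.exp (-(N ^ 4))) hp1 ht1 hs
    hs8 hNw hw0 hk0 hk hT0 hT hD0 hDE hE0 hEw (Real.exp_pos _).le hx
  have hRc : Rc (kap p n) t ((2 : ℝ) ^ ρ) (N ^ 4) D Nn ≤ 1 / 2 * w ^ 3 := by
    unfold Rc epsC
    linarith
  have hw3 : 0 < w ^ 3 := by positivity
  have h128 : 128 * (t : ℝ) + 8 ≤ N := by
    have e : s * 64 ≤ N := by
      rw [← hs8]
      have e1 : s ^ 8 = s * s ^ 7 := by ring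
      rw [e1]
      have e2 : (64 : ℝ) ≤ s ^ 7 := hs64.trans (le_self_pow₀ (by linarith) (by norm_num))
      exact mul_le_mul_of_nonneg_left e2 hs0
    linarith
  -- assemble
  have hw2 : w ^ 2 ≤ 1 / 4 := nums_w2 w hw0 hw1
  have hwone : w ≤ 1 := le_trans hw1 (by norm_num)
  have hT8w : ((2 : ℝ) ^ ρ + 8) * w ≤ 1 := by
    have h1 : ((2 : ℝ) ^ ρ + 8) * w ≤ N * w := mul_le_mul_of_nonneg_right (by linarith) hw0.le
    rwa [hNw] at h1
  have hTw : (2 : ℝ) ^ ρ * w ≤ 1 := by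
    refine le_trans ?_ hT8w
    exact mul_le_mul_of_nonneg_right (by linarith) hw0.le
  have hwN : (1 : ℝ) / (n : ℝ) = w := by rw [← hNn, hw]
  have hX := nums_X p t s (kap p n + 2) ((2 : ℝ) ^ ρ) N hp1 ht1 hs hs8 hk0 hk hT0 hT
  have hX0 : 0 ≤ 2 * (kap p n + 2) * (2 : ℝ) ^ ρ * t := by positivity
  constructor
  · exact hkap1
  · rw [hexp, ← hNn, ← hD, ← hE]
    exact hb
  · rw [hexp, ← hNn, ← hD, ← hE]
    exact hc
  · refine ⟨Nn, ?_, ?_, ?_⟩
    · rw [← hNn]; exact hpow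
    · rw [hwN, ← hNn, ← hD]
      exact nums_d1 _ w _ hTw hw0 hw2 hRc
    · rw [hwN, ← hNn, ← hD]
      exact nums_d2 p _ N w _ hp hT8w hT0 hw0 hwone hw2 hNw hRc
  · rw [hwN]
    exact nums_e p _ N w _ hp hT0 hX0 hw0 hwone hNw hX

end Pool.Agent.Helper50.BL
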